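import Mathlib
import Pool.Agent.SignedBh.Three
import Pool.Agent.SBhAs.Count
import Pool.Agent.H36SBh.Ball

/-!
# Signed `B_h` sets of size `m ≥ h` by counting

For `m ≥ h` and `n ≥ (8m/h)^(2h)` some `a ∈ (ℤ_n)^m` has no relation of norm at most `2h`: for
`x ≠ 0` the number of `a` with `∑ x i a i = 0` is at most `n^(m-1) gcd x`, the gcd is at most `2h`,
and the number of the `x` is less than `(4m)^(2h) / (2h)!`.
-/

namespace Pool.Agent.H36SBh

open Pool.Agent.SignedBh Pool.Agent.SBhAs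

private theorem num {m h C : ℕ} (hh : 1 ≤ h) (hm : h ≤ m)
    (hC : C * (2 * h).factorial ≤ (2 * m + 2 * h) ^ (2 * h)) :
    (2 * h : ℝ) * C ≤ (8 * (m : ℝ) / h) ^ (2 * h) := by
  have hhR : (1 : ℝ) ≤ h := by exact_mod_cast hh
  have hmR : (h : ℝ) ≤ m := by exact_mod_cast hm
  have hfac : (0 : ℝ) < ((2 * h).factorial : ℝ) := by exact_mod_cast Nat.factorial_pos _
  have h1 : (C : ℝ) * ((2 * h).factorial : ℝ) ≤ (4 * (m : ℝ)) ^ (2 * h) := by
    have h2 : (C : ℝ) * ((2 * h).factorial : ℝ) ≤ (2 * (m : ℝ) + 2 * h) ^ (2 * h) := by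
      exact_mod_cast hC
    refine h2.trans (pow_le_pow_left₀ (by positivity) (by linarith) _)
  have h2 : (2 * h : ℝ) ≤ 2 ^ h := by
    have : ∀ k : ℕ, 1 ≤ k → 2 * k ≤ 2 ^ k := by
      intro k hk
      induction k, hk using Nat.le_induction with
      | base => norm_num
      | succ k hk ih =>
        rw [pow_succ]
        have : 2 ≤ 2 ^ k := by
          calc 2 = 2 ^ 1 := by norm_num
            _ ≤ 2 ^ k := Nat.pow_le_pow_right (by norm_num) hk
        omega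
    exact_mod_cast this h hh
  have h3 : (2 * h : ℝ) ^ (2 * h) ≤ ((2 * h).factorial : ℝ) * 8 ^ h := by
    have h4 := Real.pow_div_factorial_le_exp (2 * h : ℝ) (by positivity) (2 * h)
    rw [div_le_iff₀ hfac] at h4
    have h5 : Real.exp (2 * h : ℝ) ≤ 8 ^ h := by
      have h6 : Real.exp (2 * h : ℝ) = (Real.exp 1 ^ 2) ^ h := by
        rw [← pow_mul, ← Real.exp_nat_mul]
        push_cast
        ring_nf
      rw [h6]
      refine pow_le_pow_left₀ (by positivity) ?_ _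
      have h7 := Real.exp_one_lt_d9
      have h8 := Real.exp_pos 1
      nlinarith
    calc (2 * h : ℝ) ^ (2 * h) ≤ Real.exp (2 * h) * ((2 * h).factorial : ℝ) := h4
      _ ≤ 8 ^ h * ((2 * h).factorial : ℝ) := mul_le_mul_of_nonneg_right h5 hfac.le
      _ = _ := mul_comm _ _
  have h4 : (32 * (m : ℝ) ^ 2) ^ h ≤ (8 * (m : ℝ) / h) ^ (2 * h) * ((2 * h).factorial : ℝ) := by
    have h5 : (8 * (m : ℝ) / h) ^ (2 * h) * (2 * h : ℝ) ^ (2 * h) =
        (32 * (m : ℝ) ^ 2) ^ h * 8 ^ h := by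
      rw [← mul_pow, ← mul_pow, pow_mul]
      congr 1
      field_simp
      ring
    have h6 : (32 * (m : ℝ) ^ 2) ^ h * 8 ^ h ≤
        ((8 * (m : ℝ) / h) ^ (2 * h) * ((2 * h).factorial : ℝ)) * 8 ^ h := by
      rw [← h5, mul_assoc]
      exact mul_le_mul_of_nonneg_left h3 (by positivity)
    exact le_of_mul_le_mul_right h6 (by positivity)
  have h5 : (2 * h : ℝ) * C * ((2 * h).factorial : ℝ) ≤
      (8 * (m : ℝ) / h) ^ (2 * h) * ((2 * h).factorial : ℝ) := by
    calc (2 * h : ℝ) * C * ((2 * h).factorial : ℝ)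
        = (2 * h : ℝ) * (C * ((2 * h).factorial : ℝ)) := by ring
      _ ≤ 2 ^ h * (4 * (m : ℝ)) ^ (2 * h) := mul_le_mul h2 h1 (by positivity) (by positivity)
      _ = (32 * (m : ℝ) ^ 2) ^ h := by
        rw [pow_mul, ← mul_pow]
        congr 1
        ring
      _ ≤ _ := h4
  exact le_of_mul_le_mul_right h5 hfac

private theorem ball_finite (m r : ℕ) : {v : Fin m → ℤ | ∑ i, |v i| ≤ (r : ℤ)}.Finite := by
  refine (Set.finite_Icc (fun _ : Fin m => -(r : ℤ)) (fun _ => (r : ℤ))).subset ?_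
  intro v hv
  have h : ∀ i, |v i| ≤ (r : ℤ) := fun i =>
    (Finset.single_le_sum (f := fun i => |v i|) (fun j _ => abs_nonneg _)
      (Finset.mem_univ i)).trans hv
  exact ⟨fun i => (abs_le.1 (h i)).1, fun i => (abs_le.1 (h i)).2⟩

open Classical in
private theorem sum_gcd {m h : ℕ} (hh : 1 ≤ h) (hm : h ≤ m) (B : Finset (Fin m → ℤ))
    (hB : ∀ x ∈ B, x ≠ 0 ∧ ∑ i, |x i| ≤ 2 * (h : ℤ)) :
    ∑ x ∈ B, ((Finset.univ.gcd x).natAbs : ℝ) < (8 * (m : ℝ) / h) ^ (2 * h) := by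
  have hhR : (1 : ℝ) ≤ h := by exact_mod_cast hh
  set C : ℕ := Nat.card {v : Fin m → ℤ // ∑ i, |v i| ≤ ((2 * h : ℕ) : ℤ)} with hCdef
  have hC : (2 * h : ℝ) * C ≤ (8 * (m : ℝ) / h) ^ (2 * h) :=
    num hh hm (card_ball_radius (2 * h) m)
  have hfin := ball_finite m (2 * h)
  have hcard : C = hfin.toFinset.card := by
    rw [hCdef, ← Set.ncard_eq_toFinset_card _ hfin]
    exact Nat.card_coe_set_eq _
  have h0 : (0 : Fin m → ℤ) ∉ B := fun h => (hB 0 h).1 rfl
  have h1 : (insert (0 : Fin m → ℤ) B).card ≤ C := by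
    rw [hcard]
    refine Finset.card_le_card ?_
    intro x hx
    rw [Set.Finite.mem_toFinset]
    rcases Finset.mem_insert.1 hx with rfl | hx
    · simp
    · have := (hB x hx).2
      change ∑ i, |x i| ≤ ((2 * h : ℕ) : ℤ)
      push_cast
      exact this
  rw [Finset.card_insert_of_notMem h0] at h1
  have h2 : ∀ x ∈ B, ((Finset.univ.gcd x).natAbs : ℝ) ≤ 2 * h := by
    intro x hx
    obtain ⟨hx0, hx1⟩ := hB x hx
    obtain ⟨i, hi⟩ : ∃ i, x i ≠ 0 := by
      by_contra hcon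
      push Not at hcon
      exact hx0 (funext hcon)
    have h3 : Finset.univ.gcd x ∣ x i := Finset.gcd_dvd (Finset.mem_univ i)
    have h4 : (Finset.univ.gcd x).natAbs ≤ (x i).natAbs :=
      Nat.le_of_dvd (Int.natAbs_pos.2 hi) (Int.natAbs_dvd_natAbs.2 h3)
    have h5 : |x i| ≤ 2 * (h : ℤ) :=
      (Finset.single_le_sum (f := fun i => |x i|) (fun j _ => abs_nonneg (x j))
        (Finset.mem_univ i)).trans hx1
    have h6 : (x i).natAbs ≤ 2 * h := by
      have h7 : (((x i).natAbs : ℕ) : ℤ) ≤ 2 * (h : ℤ) := by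
        rw [Int.natCast_natAbs]
        exact h5
      omega
    exact_mod_cast h4.trans h6
  have h3 : ∑ x ∈ B, ((Finset.univ.gcd x).natAbs : ℝ) ≤ B.card * (2 * h : ℝ) := by
    have := Finset.sum_le_card_nsmul B (fun x => ((Finset.univ.gcd x).natAbs : ℝ)) (2 * h) h2
    simpa [nsmul_eq_mul] using this
  have h4 : (B.card : ℝ) + 1 ≤ C := by exact_mod_cast h1
  nlinarith

theorem le_of_pow_le {m n h : ℕ} (hh : 1 ≤ h) (hm : h ≤ m)
    (hn : (8 * (m : ℝ) / h) ^ (2 * h) ≤ n) : m ≤ sigmaPM n h := by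
  classical
  have hhR : (1 : ℝ) ≤ h := by exact_mod_cast hh
  have hmR : (1 : ℝ) ≤ m := hhR.trans (by exact_mod_cast hm)
  have hn0 : 0 < n := by
    have h1 : (0 : ℝ) < (8 * (m : ℝ) / h) ^ (2 * h) := by positivity
    exact_mod_cast lt_of_lt_of_le h1 hn
  have : NeZero n := ⟨hn0.ne'⟩
  let B : Finset (Fin m → ℤ) :=
    (Fintype.piFinset fun _ : Fin m => Finset.Icc (-(2 * (h : ℤ))) (2 * h)).filter
      fun x => x ≠ 0 ∧ ∑ i, |x i| ≤ 2 * h
  have hB : ∀ x ∈ B, x ≠ 0 ∧ ∑ i, |x i| ≤ 2 * (h : ℤ) := fun x hx => (Finset.mem_filter.1 hx).2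
  have hsum := sum_gcd hh hm B hB
  let Sol : (Fin m → ℤ) → Finset (Fin m → ZMod n) := fun x =>
    Finset.univ.filter fun a => ∑ i, (x i : ZMod n) * a i = 0
  have hSol : ∀ x ∈ B, (Sol x).card * n ≤ n ^ m * (Finset.univ.gcd x).natAbs := by
    intro x hx
    have h1 := card_sol n hn0 x (hB x hx).1
    rw [Nat.card_eq_fintype_card, Fintype.card_subtype] at h1
    exact h1
  have hex : ∃ a : Fin m → ZMod n, ∀ x ∈ B, a ∉ Sol x := by
    by_contra hcon
    push Not at hcon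
    have h1 : (Finset.univ : Finset (Fin m → ZMod n)) ⊆ B.biUnion Sol := by
      intro a _
      obtain ⟨x, hx, hax⟩ := hcon a
      exact Finset.mem_biUnion.2 ⟨x, hx, hax⟩
    have h2 : n ^ m ≤ ∑ x ∈ B, (Sol x).card := by
      have h3 := (Finset.card_le_card h1).trans Finset.card_biUnion_le
      rw [Finset.card_univ, Fintype.card_fun, ZMod.card, Fintype.card_fin] at h3
      exact h3
    have h3 : n ^ m * n ≤ n ^ m * ∑ x ∈ B, (Finset.univ.gcd x).natAbs := by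
      calc n ^ m * n ≤ (∑ x ∈ B, (Sol x).card) * n := Nat.mul_le_mul_right n h2
        _ = ∑ x ∈ B, (Sol x).card * n := Finset.sum_mul _ _ _
        _ ≤ ∑ x ∈ B, n ^ m * (Finset.univ.gcd x).natAbs := Finset.sum_le_sum hSol
        _ = _ := (Finset.mul_sum _ _ _).symm
    have h4 : n ≤ ∑ x ∈ B, (Finset.univ.gcd x).natAbs :=
      Nat.le_of_mul_le_mul_left h3 (pow_pos hn0 m)
    have h5 : (n : ℝ) ≤ ∑ x ∈ B, ((Finset.univ.gcd x).natAbs : ℝ) := by exact_mod_cast h4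
    exact absurd (lt_of_le_of_lt h5 hsum) (not_lt.2 hn)
  obtain ⟨a, ha⟩ := hex
  have hlat : Lat n h a := by
    intro d _ hd hda
    by_contra hne
    refine ha d (Finset.mem_filter.2 ⟨?_, hne, hd⟩) (Finset.mem_filter.2 ⟨Finset.mem_univ _, hda⟩)
    rw [Fintype.mem_piFinset]
    intro i
    have h1 : |d i| ≤ ∑ i, |d i| :=
      Finset.single_le_sum (f := fun i => |d i|) (fun j _ => abs_nonneg (d j)) (Finset.mem_univ i)
    rw [Finset.mem_Icc, ← abs_le]
    exact h1.trans hd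
  have h1 := hlat.le_sigmaPM (by omega) hn0
  rwa [Fintype.card_fin] at h1

end Pool.Agent.H36SBh
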