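import Mathlib
import Pool.Agent.SignedBh.Growth
import Pool.Agent.SBhAs.Upper
import Pool.Agent.H36SBh.Lower

/-!
# `σ_±(ℤ_n, h)` for `h ≤ log n`, uniformly in `h`
-/

namespace Pool.Agent.H36SBh

open Pool.Agent.SignedBh Pool.Agent.SBhAs

section

variable {n h : ℕ}

private theorem n_pos (hh : 1 ≤ h) (hn : (h : ℝ) ≤ Real.log n) : 0 < n := by
  rcases Nat.eq_zero_or_pos n with rfl | h0
  · have h1 : (1 : ℝ) ≤ h := by exact_mod_cast hh
    simp only [Nat.cast_zero, Real.log_zero] at hn
    linarith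
  · exact h0

private theorem exp_le (hh : 1 ≤ h) (hn : (h : ℝ) ≤ Real.log n) : Real.exp h ≤ n := by
  have h0 : (0 : ℝ) < n := by exact_mod_cast n_pos hh hn
  exact (Real.le_log_iff_exp_le h0).1 hn

private theorem two_mul_lt (hh : 1 ≤ h) (hn : (h : ℝ) ≤ Real.log n) : 2 * h < n := by
  have h1 := exp_le hh hn
  have h2 : (2 * h : ℝ) < Real.exp h := by
    have h3 : (h : ℝ) * Real.exp 1 ≤ Real.exp h := by
      have h4 : (h : ℝ) - 1 + 1 ≤ Real.exp (h - 1) := Real.add_one_le_exp _
      have h5 : Real.exp h = Real.exp (h - 1) * Real.exp 1 := by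
        rw [← Real.exp_add]
        ring_nf
      rw [h5]
      refine mul_le_mul_of_nonneg_right (by linarith) (Real.exp_pos 1).le
    have h6 := Real.exp_one_gt_d9
    have h7 : (1 : ℝ) ≤ h := by exact_mod_cast hh
    nlinarith
  exact_mod_cast lt_of_lt_of_le h2 h1

theorem one_le_sigma (hh : 1 ≤ h) (hn : (h : ℝ) ≤ Real.log n) : 1 ≤ sigmaPM n h := by
  have h1 := two_mul_lt hh hn
  exact (one_le_iff (by omega) hh).mpr (fun hd => by
    have := Nat.le_of_dvd (by omega) hd
    omega)

/-- the upper bound -/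
theorem sigma_le (hh : 1 ≤ h) (hn : 0 < n) :
    (sigmaPM n h : ℝ) ≤ h * (n : ℝ) ^ (1 / (h : ℝ)) := by
  have hh0 : h ≠ 0 := by omega
  have h1 : (sigmaPM n h : ℝ) ^ h ≤ (h.factorial : ℝ) * n := by
    exact_mod_cast pow_le (h := h) hn
  have h2 : (h.factorial : ℝ) ≤ (h : ℝ) ^ h := by exact_mod_cast Nat.factorial_le_pow h
  have h3 : (h * (n : ℝ) ^ (1 / (h : ℝ))) ^ h = (h : ℝ) ^ h * n := by
    rw [mul_pow, one_div, Real.rpow_inv_natCast_pow (by positivity) hh0]
  refine le_of_pow_le_pow_left₀ hh0 (by positivity) ?_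
  rw [h3]
  exact h1.trans (mul_le_mul_of_nonneg_right h2 (by positivity))

/-- the lower bound from the prime power construction -/
theorem le_sigma_one (hh : 1 ≤ h) (hn : (h : ℝ) ≤ Real.log n) :
    (n : ℝ) ^ (1 / (h : ℝ)) / 16 ≤ sigmaPM n h := by
  have hh0 : h ≠ 0 := by omega
  have hn0 := n_pos hh hn
  set x : ℝ := (n : ℝ) ^ (1 / (h : ℝ)) with hx
  have hx0 : 0 ≤ x := by positivity
  have hxh : x ^ h = n := by
    rw [hx, one_div, Real.rpow_inv_natCast_pow (by positivity) hh0]
  have hs1 : (1 : ℝ) ≤ sigmaPM n h := by exact_mod_cast one_le_sigma hh hn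
  rcases lt_or_ge x 8 with h8 | h8
  · linarith
  · set y : ℕ := ⌊x / 8⌋₊ with hy
    have hy1 : (y : ℝ) ≤ x / 8 := Nat.floor_le (by positivity)
    have hy2 : x / 8 < y + 1 := Nat.lt_floor_add_one _
    have hy3 : 1 ≤ y := Nat.one_le_floor_iff _ |>.2 (by linarith)
    have hy4 : (1 : ℝ) ≤ y := by exact_mod_cast hy3
    have h1 : y ≤ sigmaPM n h := by
      refine le_of_lt hy3 hh ?_
      have h2 : ((h * ((4 * y) ^ h + 1) : ℕ) : ℝ) < n := by
        push_cast
        have h3 : (4 * (y : ℝ)) ^ h ≤ (x / 2) ^ h :=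
          pow_le_pow_left₀ (by positivity) (by linarith) _
        have h4 : (x / 2) ^ h = n / 2 ^ h := by rw [div_pow, hxh]
        have h5 : (2 * h : ℝ) ≤ 2 ^ h := by
          have : ∀ k : ℕ, 1 ≤ k → 2 * k ≤ 2 ^ k := by
            intro k hk
            induction k, hk using Nat.le_induction with
            | base => norm_num
            | succ k hk ih =>
              rw [pow_succ]
              have : 2 ≤ 2 ^ k := by
                calc 2 = 2 ^ 1 := by norm_num
                  _ ≤ 2 ^ k := Nat.pow_le_pow_right (by norm_num) hk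
              omega
          exact_mod_cast this h hh
        have h6 : (h : ℝ) * (n / 2 ^ h) ≤ n / 2 := by
          rw [mul_div_assoc', div_le_div_iff₀ (by positivity) (by norm_num)]
          have : (0 : ℝ) ≤ n := by positivity
          nlinarith
        have h7 : (2 * h : ℝ) < n := by exact_mod_cast two_mul_lt hh hn
        have h8 : (0 : ℝ) ≤ h := by positivity
        have h9 : (h : ℝ) * ((4 * (y : ℝ)) ^ h) ≤ h * (n / 2 ^ h) := by
          rw [← h4]
          exact mul_le_mul_of_nonneg_left h3 h8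
        linarith
      exact_mod_cast h2
    have h2 : (y : ℝ) ≤ sigmaPM n h := by exact_mod_cast h1
    linarith

private theorem le_sigma_h (hh : 1 ≤ h) (hn : (h : ℝ) ≤ Real.log n) :
    (h : ℝ) / 16 ≤ sigmaPM n h := by
  have hs1 : (1 : ℝ) ≤ sigmaPM n h := by exact_mod_cast one_le_sigma hh hn
  rcases Nat.lt_or_ge h 8 with h8 | h8
  · have : (h : ℝ) < 8 := by exact_mod_cast h8
    linarith
  · set m : ℕ := h / 8 with hm
    have hm1 : 1 ≤ m := by omega
    have hm2 : 8 * m ≤ h := by omega
    have hm3 : h < 8 * (m + 1) := by omega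
    have hmR : (1 : ℝ) ≤ m := by exact_mod_cast hm1
    have hm2R : 8 * (m : ℝ) ≤ h := by exact_mod_cast hm2
    have hm3R : (h : ℝ) < 8 * (m + 1) := by exact_mod_cast hm3
    have h1 : m ≤ sigmaPM n h := by
      refine upperA hm1 (by omega) ?_
      refine le_trans ?_ (exp_le hh hn)
      set u : ℝ := (h : ℝ) / m with hu
      have hu8 : 8 ≤ u := by
        rw [hu, le_div_iff₀ (by linarith)]
        exact hm2R
      have h2 : 64 * (h : ℝ) / m ≤ Real.exp u := by
        have h3 : 64 * (h : ℝ) / m = 64 * u := by rw [hu]; ring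
        rw [h3]
        have h4 : (u - 8) + 1 ≤ Real.exp (u - 8) := Real.add_one_le_exp _
        have h5 : (512 : ℝ) ≤ Real.exp 8 := by
          have h6 : Real.exp 8 = Real.exp 1 ^ 8 := by
            rw [← Real.exp_nat_mul]
            norm_num
          rw [h6]
          have h7 : (2.7 : ℝ) ≤ Real.exp 1 := by
            have := Real.exp_one_gt_d9
            linarith
          calc (512 : ℝ) ≤ 2.7 ^ 8 := by norm_num
            _ ≤ Real.exp 1 ^ 8 := pow_le_pow_left₀ (by norm_num) h7 8
        have h6 : Real.exp u = Real.exp 8 * Real.exp (u - 8) := by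
          rw [← Real.exp_add]
          ring_nf
        rw [h6]
        have h7 : (512 : ℝ) * ((u - 8) + 1) ≤ Real.exp 8 * Real.exp (u - 8) :=
          mul_le_mul h5 h4 (by linarith) (by positivity)
        linarith
      calc (64 * (h : ℝ) / m) ^ m ≤ Real.exp u ^ m := pow_le_pow_left₀ (by positivity) h2 m
        _ = Real.exp h := by
          rw [← Real.exp_nat_mul, hu]
          congr 1
          field_simp
    have h2 : (m : ℝ) ≤ sigmaPM n h := by exact_mod_cast h1
    linarith

/-- the lower bound from counting -/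
theorem le_sigma_two (hh : 1 ≤ h) (hn : (h : ℝ) ≤ Real.log n) :
    h * (n : ℝ) ^ (1 / (2 * (h : ℝ))) / 128 ≤ sigmaPM n h := by
  have hh0 : h ≠ 0 := by omega
  have hn0 := n_pos hh hn
  have hhR : (1 : ℝ) ≤ h := by exact_mod_cast hh
  set y : ℝ := (n : ℝ) ^ (1 / (2 * (h : ℝ))) with hy
  have hy0 : 0 ≤ y := by positivity
  have hyh : y ^ (2 * h) = n := by
    have h1 : (1 / (2 * (h : ℝ))) = (((2 * h : ℕ) : ℝ))⁻¹ := by
      push_cast
      rw [one_div]
    rw [hy, h1, Real.rpow_inv_natCast_pow (by positivity) (by omega)]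
  rcases lt_or_ge y 8 with h8 | h8
  · have h1 := le_sigma_h hh hn
    nlinarith
  · set m : ℕ := ⌊h * y / 8⌋₊ with hm
    have hm1 : (m : ℝ) ≤ h * y / 8 := Nat.floor_le (by positivity)
    have hm2 : h * y / 8 < m + 1 := Nat.lt_floor_add_one _
    have hm3 : h ≤ m := by
      refine Nat.le_floor ?_
      nlinarith
    have hm4 : (h : ℝ) ≤ m := by exact_mod_cast hm3
    have h1 : m ≤ sigmaPM n h := by
      refine le_of_pow_le hh hm3 ?_
      rw [← hyh]
      refine pow_le_pow_left₀ (by positivity) ?_ _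
      rw [div_le_iff₀ (by linarith)]
      linarith
    have h2 : (m : ℝ) ≤ sigmaPM n h := by exact_mod_cast h1
    nlinarith

end

end Pool.Agent.H36SBh
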