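import Mathlib
import Pool.Agent.H36SBh.Main

/-!
# `log σ_±(ℤ_n, h)` for `h ≤ log n`
-/

namespace Pool.Agent.H36SBh

open Pool.Agent.SignedBh Filter

variable {n h : ℕ}

theorem log_bounds (hh : 1 ≤ h) (hn : (h : ℝ) ≤ Real.log n) :
    Real.log n / h - 5 ≤ Real.log (sigmaPM n h) ∧
    Real.log h + Real.log n / h / 2 - 5 ≤ Real.log (sigmaPM n h) ∧
    Real.log (sigmaPM n h) ≤ Real.log n / h + Real.log h := by
  have hhR : (1 : ℝ) ≤ h := by exact_mod_cast hh
  have hn0 : 0 < n := by
    rcases Nat.eq_zero_or_pos n with rfl | h0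
    · simp only [Nat.cast_zero, Real.log_zero] at hn
      linarith
    · exact h0
  have hnR : (0 : ℝ) < n := by exact_mod_cast hn0
  have hs1 : (1 : ℝ) ≤ sigmaPM n h := by exact_mod_cast one_le_sigma hh hn
  have hl2 : Real.log 2 ≤ 0.7 := by
    have := Real.log_two_lt_d9
    linarith
  refine ⟨?_, ?_, ?_⟩
  · have h1 := Real.log_le_log (by positivity) (le_sigma_one hh hn)
    rw [Real.log_div (by positivity) (by norm_num), Real.log_rpow hnR] at h1
    have h2 : Real.log 16 = 4 * Real.log 2 := by
      rw [show (16 : ℝ) = 2 ^ 4 by norm_num, Real.log_pow]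
      norm_num
    rw [h2] at h1
    have h3 : 1 / (h : ℝ) * Real.log n = Real.log n / h := by ring
    linarith
  · have h1 := Real.log_le_log (by positivity) (le_sigma_two hh hn)
    rw [Real.log_div (by positivity) (by norm_num), Real.log_mul (by positivity) (by positivity),
      Real.log_rpow hnR] at h1
    have h2 : Real.log 128 = 7 * Real.log 2 := by
      rw [show (128 : ℝ) = 2 ^ 7 by norm_num, Real.log_pow]
      norm_num
    rw [h2] at h1
    have h3 : 1 / (2 * (h : ℝ)) * Real.log n = Real.log n / h / 2 := by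
      field_simp
    linarith
  · have h1 := Real.log_le_log (by positivity) (sigma_le hh hn0)
    rw [Real.log_mul (by positivity) (by positivity), Real.log_rpow hnR] at h1
    have h3 : 1 / (h : ℝ) * Real.log n = Real.log n / h := by ring
    linarith

theorem exponent (hh : 1 ≤ h) (hn : (h : ℝ) ≤ Real.log n) :
    2 / 3 * (Real.log n / h + Real.log h) - 5 ≤ Real.log (sigmaPM n h) := by
  obtain ⟨h1, h2, -⟩ := log_bounds hh hn
  rcases le_total (Real.log h) (Real.log n / h / 2) with h3 | h3 <;> linarith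

theorem regimes (ε : ℝ) (hε : 0 < ε) : ∃ δ : ℝ, 0 < δ ∧ ∃ N : ℕ, ∀ n h : ℕ, N ≤ n → 1 ≤ h →
    (h * Real.log (Real.log n) ≤ δ * Real.log n →
      |Real.log (sigmaPM n h) - Real.log n / h| ≤ ε * (Real.log n / h)) ∧
    (Real.log n ≤ δ * (h * Real.log (Real.log n)) → (h : ℝ) ≤ Real.log n →
      |Real.log (sigmaPM n h) - Real.log h| ≤ ε * Real.log h) := by
  have hlim : Tendsto (fun n : ℕ => Real.log (Real.log n)) atTop atTop :=
    Real.tendsto_log_atTop.comp (Real.tendsto_log_atTop.comp tendsto_natCast_atTop_atTop)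
  have hlim2 : Tendsto (fun n : ℕ => Real.log n) atTop atTop :=
    Real.tendsto_log_atTop.comp tendsto_natCast_atTop_atTop
  obtain ⟨N, hN⟩ := eventually_atTop.1 ((hlim.eventually_ge_atTop (1 + 10 / ε)).and
    (hlim2.eventually_ge_atTop 1))
  refine ⟨min (ε / 5) (1 / 2), lt_min (by positivity) (by norm_num), N, fun n h hn hh => ?_⟩
  obtain ⟨hl, hL⟩ := hN n hn
  set δ : ℝ := min (ε / 5) (1 / 2) with hδ
  have hδ0 : 0 < δ := lt_min (by positivity) (by norm_num)
  have hδ1 : δ ≤ ε / 5 := min_le_left _ _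
  have hδ2 : δ ≤ 1 / 2 := min_le_right _ _
  set L : ℝ := Real.log n with hLdef
  set l : ℝ := Real.log L with hldef
  have hε10 : 0 < 10 / ε := by positivity
  have hl1 : 1 ≤ l := by linarith
  have hhR : (1 : ℝ) ≤ h := by exact_mod_cast hh
  have hL0 : 0 < L := by linarith
  constructor
  · intro h1
    have h2 : (h : ℝ) ≤ L := by nlinarith
    obtain ⟨b1, -, b3⟩ := log_bounds hh h2
    have h3 : Real.log h ≤ l := Real.log_le_log (by linarith) h2
    have h4 : l ≤ δ * (L / h) := by
      rw [← mul_div_assoc, le_div_iff₀ (by linarith)]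
      linarith
    have h5 : 0 < L / h := by positivity
    have h6 : δ * (L / h) ≤ ε / 5 * (L / h) := mul_le_mul_of_nonneg_right hδ1 h5.le
    rw [abs_le]
    constructor <;> nlinarith
  · intro h1 h2
    obtain ⟨-, b2, b3⟩ := log_bounds hh h2
    have h5 : 0 < L / h := by positivity
    have h3 : L / h ≤ δ * l := by
      rw [div_le_iff₀ (by linarith)]
      linarith
    have hs0 : 0 < Real.sqrt L := Real.sqrt_pos.2 hL0
    have hss : Real.sqrt L * Real.sqrt L = L := Real.mul_self_sqrt hL0.le
    have h4 : l / 2 ≤ Real.sqrt L := by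
      have h7 := Real.log_le_sub_one_of_pos hs0
      rw [Real.log_sqrt hL0.le] at h7
      linarith
    have h6 : Real.sqrt L ≤ h := by
      have h7 : δ * l ≤ Real.sqrt L := by nlinarith
      have h8 : L ≤ Real.sqrt L * h := by
        calc L ≤ (δ * l) * h := by linarith
          _ ≤ Real.sqrt L * h := mul_le_mul_of_nonneg_right h7 (by linarith)
      have h9 : Real.sqrt L * Real.sqrt L ≤ Real.sqrt L * h := by rw [hss]; exact h8
      exact le_of_mul_le_mul_left h9 hs0
    have h7 : l / 2 ≤ Real.log h := by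
      have h8 := Real.log_le_log hs0 h6
      rwa [Real.log_sqrt hL0.le] at h8
    have h8 : δ * l ≤ ε * Real.log h := by
      calc δ * l ≤ (ε / 5) * l := mul_le_mul_of_nonneg_right hδ1 (by linarith)
        _ ≤ ε * Real.log h := by nlinarith
    have h9 : 5 ≤ ε * Real.log h := by
      have h10 : 10 / ε * ε = 10 := by field_simp
      nlinarith
    rw [abs_le]
    constructor <;> linarith

end Pool.Agent.H36SBh
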